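import Mathlib.Algebra.GroupWithZero.Nat
import Mathlib.Algebra.Order.Group.Unbundled.Abs
import Mathlib.Data.Fintype.Prod
import Mathlib.Data.List.Lookmap

/-! Boggle boards: words, types, symmetries of the square, solvability. -/

namespace Pool.Agent.MP_3c4208_co

/-- Two cells of the `n × n` grid are adjacent if they are distinct and share a side or a corner
(the king graph). -/
def KingAdj {n : ℕ} (a b : Fin n × Fin n) : Prop :=
  a ≠ b ∧ |(a.1 : ℤ) - (b.1 : ℤ)| ≤ 1 ∧ |(a.2 : ℤ) - (b.2 : ℤ)| ≤ 1

/-- The words of a board: the letter sequences read along paths of at least two pairwise distinct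
cells, consecutive cells being adjacent. -/
def words {n : ℕ} (B : Fin n × Fin n → ℕ) : Set (List ℕ) :=
  {w | ∃ p : List (Fin n × Fin n), 2 ≤ p.length ∧ p.Nodup ∧ p.IsChain KingAdj ∧ w = p.map B}

/-- `lam` is a partition of `N`: weakly decreasing positive parts with sum `N`. -/
def IsPartition (N : ℕ) (lam : List ℕ) : Prop :=
  lam.Pairwise (fun a b => b ≤ a) ∧ (∀ a ∈ lam, 1 ≤ a) ∧ lam.sum = N

/-- The board has type `lam`: for each `i`, exactly `lam i` cells carry the `i`-th letter
(letters are numbered from 1, list positions from 0). -/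
def HasType {n : ℕ} (B : Fin n × Fin n → ℕ) (lam : List ℕ) : Prop :=
  ∀ i : Fin lam.length, (Finset.univ.filter (fun c => B c = (i : ℕ) + 1)).card = lam.get i

/-- The eight symmetries of the square acting on cells: optionally reverse the first coordinate,
optionally reverse the second, optionally swap the two. -/
def squareSym {n : ℕ} (r₁ r₂ t : Bool) (c : Fin n × Fin n) : Fin n × Fin n :=
  if t then (if r₂ then c.2.rev else c.2, if r₁ then c.1.rev else c.1)
  else (if r₁ then c.1.rev else c.1, if r₂ then c.2.rev else c.2)

/-- A board of type `lam` is solvable if every board of type `lam` with the same words is its image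
under one of the eight symmetries of the square. -/
def Solvable {n : ℕ} (lam : List ℕ) (B : Fin n × Fin n → ℕ) : Prop :=
  ∀ B' : Fin n × Fin n → ℕ, HasType B' lam → words B' = words B →
    ∃ r₁ r₂ t : Bool, B' = B ∘ squareSym r₁ r₂ t

end Pool.Agent.MP_3c4208_co
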