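import Mathlib.Algebra.Order.BigOperators.Group.Finset
import Mathlib.Algebra.BigOperators.Fin
import Mathlib.Algebra.CharP.Defs
import Mathlib.Data.Int.SuccPred
import Mathlib.Data.Int.ConditionallyCompleteOrder
import Mathlib.Data.Int.Star
import Mathlib.Algebra.Order.Ring.Star
import Mathlib.Data.List.GetD
import Mathlib.Data.Int.Range
import Mathlib.Order.Interval.Finset.Box
import Mathlib.Order.CompletePartialOrder
import Pool.Agent.MP_3c4208_co.Defs

-- ======== part 0: formerly Pool.Agent.MP_3c4208_co.Path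
section MrgPart0

/-! King paths in the integer plane, and a Hamiltonian path of a rectangle made of nested
corner-shaped arcs. -/

namespace Pool.Agent.MP_3c4208_co

/-- king step or equality -/
def Near (p q : ℤ × ℤ) : Prop :=
  p.1 - q.1 ≤ 1 ∧ q.1 - p.1 ≤ 1 ∧ p.2 - q.2 ≤ 1 ∧ q.2 - p.2 ≤ 1

/-- `p` and `q` are consecutive in `L` -/
def Cons (L : List (ℤ × ℤ)) (p q : ℤ × ℤ) : Prop := [p, q] <:+: L ∨ [q, p] <:+: L

theorem Cons.symm {L : List (ℤ × ℤ)} {p q : ℤ × ℤ} (h : Cons L p q) : Cons L q p := Or.symm h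

theorem rm_chain (g : ℕ → ℤ × ℤ) (m : ℕ) (h : ∀ j, j + 1 < m → Near (g j) (g (j + 1))) :
    ((List.range m).map g).IsChain Near := by
  rw [List.isChain_iff_getElem]
  intro i hi
  simp only [List.length_map, List.length_range] at hi
  simpa using h i hi

theorem rm_nodup (g : ℕ → ℤ × ℤ) (m : ℕ) (h : ∀ i < m, ∀ j < m, g i = g j → i = j) :
    ((List.range m).map g).Nodup := by
  refine List.Nodup.map_on ?_ List.nodup_range
  intro i hi j hj e
  exact h i (List.mem_range.1 hi) j (List.mem_range.1 hj) e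

theorem rm_infix (g : ℕ → ℤ × ℤ) (m j : ℕ) (h : j + 1 < m) :
    [g j, g (j + 1)] <:+: (List.range m).map g := by
  obtain ⟨k, rfl⟩ : ∃ k, m = (j + 2) + k := ⟨m - (j + 2), by omega⟩
  rw [List.range_add, List.range_succ, List.range_succ]
  refine ⟨(List.range j).map g, ((List.range k).map (fun x => j + 2 + x)).map g, ?_⟩
  simp

theorem rm_last (g : ℕ → ℤ × ℤ) (m : ℕ) :
    ((List.range (m + 1)).map g).getLast? = some (g m) := by
  rw [List.range_succ]; simp

theorem append_step (L : List (ℤ × ℤ)) (e : ℤ × ℤ) (g : ℕ → ℤ × ℤ) (m : ℕ)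
    (h1 : L.Nodup) (h2 : L.IsChain Near) (h3 : L.getLast? = some e) (h4 : Near e (g 0))
    (h5 : ∀ j, j + 1 < m + 1 → Near (g j) (g (j + 1)))
    (h6 : ∀ i < m + 1, ∀ j < m + 1, g i = g j → i = j) (h7 : ∀ j < m + 1, g j ∉ L) :
    ∃ M : List (ℤ × ℤ), M.Nodup ∧ M.IsChain Near ∧ M.getLast? = some (g m) ∧
      (∀ p, p ∈ M ↔ p ∈ L ∨ ∃ j < m + 1, g j = p) ∧ (∀ p q, Cons L p q → Cons M p q) ∧
      ∀ j, j + 1 < m + 1 → Cons M (g j) (g (j + 1)) := by
  refine ⟨L ++ (List.range (m + 1)).map g, ?_, ?_, ?_, ?_, ?_, ?_⟩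
  · rw [List.nodup_append]
    refine ⟨h1, rm_nodup g _ h6, ?_⟩
    intro a ha b hb e
    obtain ⟨j, hj, rfl⟩ := List.mem_map.1 hb
    exact h7 j (List.mem_range.1 hj) (e ▸ ha)
  · rw [List.isChain_append]
    refine ⟨h2, rm_chain g _ h5, ?_⟩
    intro x hx y hy
    rw [h3] at hx
    rw [List.range_succ_eq_map] at hy
    simp at hx hy
    rw [← hx, ← hy]; exact h4
  · rw [List.getLast?_append, rm_last]; rfl
  · intro p
    simp only [List.mem_append, List.mem_map, List.mem_range]
  · intro p q h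
    rcases h with h | h
    · exact Or.inl (h.trans (List.prefix_append _ _).isInfix)
    · exact Or.inr (h.trans (List.prefix_append _ _).isInfix)
  · intro j hj
    exact Or.inl ((rm_infix g _ j hj).trans (List.suffix_append _ _).isInfix)

/-- `L` is a Hamiltonian king path of the rectangle `[0,a] × [0,b]` that contains all vertical
steps on and below the diagonal and all horizontal steps on and above the diagonal. -/
def Good (L : List (ℤ × ℤ)) (a b : ℤ) : Prop :=
  L.Nodup ∧ L.IsChain Near ∧ (∀ p, p ∈ L ↔ 0 ≤ p.1 ∧ p.1 ≤ a ∧ 0 ≤ p.2 ∧ p.2 ≤ b) ∧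
    (∀ u v, u ≤ a → v ≤ b → 1 ≤ v → v ≤ u → Cons L (u, v - 1) (u, v)) ∧
    (∀ u v, u ≤ a → v ≤ b → 1 ≤ u → u ≤ v → Cons L (u - 1, v) (u, v))

theorem Cons.map {L : List (ℤ × ℤ)} {p q : ℤ × ℤ} (f : ℤ × ℤ → ℤ × ℤ) (h : Cons L p q) :
    Cons (L.map f) (f p) (f q) := by
  rcases h with h | h
  · exact Or.inl (by simpa using h.map f)
  · exact Or.inr (by simpa using h.map f)

theorem Good.swap {L : List (ℤ × ℤ)} {a b : ℤ} (h : Good L a b) :
    Good (L.map Prod.swap) b a := by
  obtain ⟨h1, h2, h3, h4, h5⟩ := h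
  refine ⟨h1.map Prod.swap_injective, ?_, ?_, ?_, ?_⟩
  · rw [List.isChain_map]
    refine h2.imp ?_
    intro p q h
    simp only [Near, Prod.fst_swap, Prod.snd_swap] at h ⊢
    omega
  · intro p
    have : p ∈ L.map Prod.swap ↔ p.swap ∈ L := by
      constructor
      · intro h
        obtain ⟨q, hq, rfl⟩ := List.mem_map.1 h
        simpa using hq
      · intro h
        exact List.mem_map.2 ⟨_, h, by simp⟩
    rw [this, h3]
    simp only [Prod.fst_swap, Prod.snd_swap]
    omega
  · intro u v hu hv h1 h2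
    simpa using (h5 v u hv hu h1 h2).map Prod.swap
  · intro u v hu hv h1 h2
    simpa using (h4 v u hv hu h1 h2).map Prod.swap

theorem good_square (k : ℕ) : ∃ L, Good L k k ∧ L.getLast? = some ((k : ℤ), 0) := by
  induction k with
  | zero =>
    refine ⟨[(0, 0)], ⟨by simp, by simp, ?_, ?_, ?_⟩, by simp⟩
    · intro p
      simp only [List.mem_singleton, Prod.ext_iff]
      omega
    · intro u v; omega
    · intro u v; omega
  | succ k ih =>
    obtain ⟨L0, hL0, hl0⟩ := ih
    have hL := hL0.swap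
    have hl : (L0.map Prod.swap).getLast? = some (0, (k : ℤ)) := by
      rw [List.getLast?_map, hl0]; rfl
    generalize L0.map Prod.swap = L at hL hl
    obtain ⟨h1, h2, h3, h4, h5⟩ := hL
    let g : ℕ → ℤ × ℤ := fun j =>
      if j ≤ k + 1 then ((j : ℤ), (k : ℤ) + 1) else ((k : ℤ) + 1, 2 * (k : ℤ) + 2 - j)
    obtain ⟨M, m1, m2, m3, m4, m5, m6⟩ := append_step L (0, k) g (2 * k + 2) h1 h2 hl
      (by simp [g, Near])
      (by
        intro j hj
        simp only [g, Near]
        split_ifs <;> simp only [] <;> omega)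
      (by
        intro i hi j hj
        simp only [g]
        split_ifs <;> simp only [Prod.ext_iff] <;> omega)
      (by
        intro j hj
        rw [h3]
        simp only [g]
        split_ifs <;> simp only [] <;> omega)
    refine ⟨M, ⟨m1, m2, ?_, ?_, ?_⟩, ?_⟩
    · intro p
      rw [m4, h3]
      constructor
      · rintro (h | ⟨j, hj, rfl⟩)
        · push_cast; omega
        · simp only [g]
          split_ifs <;> simp only [] <;> omega
      · intro h
        by_cases c : p.1 ≤ k ∧ p.2 ≤ k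
        · left; omega
        · right
          by_cases c2 : p.2 = k + 1
          · refine ⟨p.1.toNat, by omega, ?_⟩
            simp only [g]
            split_ifs <;> simp only [Prod.ext_iff] <;> omega
          · refine ⟨(2 * (k : ℤ) + 2 - p.2).toNat, by omega, ?_⟩
            simp only [g]
            split_ifs <;> simp only [Prod.ext_iff] <;> omega
    · intro u v hu hv a1 a2
      by_cases c : u ≤ k
      · exact m5 _ _ (h4 u v c (by omega) a1 a2)
      · have := (m6 (2 * (k : ℤ) + 2 - v).toNat (by omega)).symm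
        convert this using 1
        · simp only [g]
          split_ifs <;> simp only [Prod.ext_iff] <;> omega
        · simp only [g]
          split_ifs <;> simp only [Prod.ext_iff] <;> omega
    · intro u v hu hv a1 a2
      by_cases c : v ≤ k
      · exact m5 _ _ (h5 u v (by omega) c a1 a2)
      · have := m6 (u - 1).toNat (by omega)
        convert this using 1
        · simp only [g]
          split_ifs <;> simp only [Prod.ext_iff] <;> omega
        · simp only [g]
          split_ifs <;> simp only [Prod.ext_iff] <;> omega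
    · rw [m3]
      simp only [g]
      split_ifs <;> simp only [Option.some.injEq, Prod.ext_iff] <;> omega

theorem good_wide (b k : ℕ) : ∃ L, Good L (b + k) b ∧
    (L.getLast? = some ((b : ℤ) + k, 0) ∨ L.getLast? = some ((b : ℤ) + k, (b : ℤ))) := by
  induction k with
  | zero =>
    obtain ⟨L, h, hl⟩ := good_square b
    exact ⟨L, by simpa using h, Or.inl (by simpa using hl)⟩
  | succ k ih =>
    obtain ⟨L, ⟨h1, h2, h3, h4, h5⟩, hl⟩ := ih
    have key : ∀ (e : ℤ × ℤ) (s : ℤ), L.getLast? = some e → (s = 0 ∨ s = 1) →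
        e = ((b : ℤ) + k, s * b) → ∃ M, Good M (b + (k + 1 : ℕ)) b ∧
          M.getLast? = some ((b : ℤ) + (k + 1 : ℕ), (1 - s) * b) := by
      intro e s he hs hes
      let g : ℕ → ℤ × ℤ := fun j => ((b : ℤ) + k + 1, if s = 0 then (j : ℤ) else (b : ℤ) - j)
      obtain ⟨M, m1, m2, m3, m4, m5, m6⟩ := append_step L e g b h1 h2 he
        (by rcases hs with rfl | rfl <;> simp [g, Near, hes])
        (by
          intro j hj
          simp only [g, Near]
          split_ifs <;> omega)
        (by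
          intro i hi j hj
          simp only [g]
          split_ifs <;> simp only [Prod.ext_iff] <;> omega)
        (by
          intro j hj
          rw [h3]
          simp only [g]
          omega)
      refine ⟨M, ⟨m1, m2, ?_, ?_, ?_⟩, ?_⟩
      · intro p
        rw [m4, h3]
        constructor
        · rintro (h | ⟨j, hj, rfl⟩)
          · push_cast; omega
          · simp only [g]
            split_ifs <;> omega
        · intro h
          by_cases c : p.1 ≤ b + k
          · left; omega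
          · right
            by_cases c2 : s = 0
            · refine ⟨p.2.toNat, by omega, ?_⟩
              simp only [g, c2, if_true, Prod.ext_iff]
              omega
            · refine ⟨((b : ℤ) - p.2).toNat, by omega, ?_⟩
              simp only [g, c2, if_false, Prod.ext_iff]
              omega
      · intro u v hu hv a1 a2
        by_cases c : u ≤ b + k
        · exact m5 _ _ (h4 u v c hv a1 a2)
        · by_cases c2 : s = 0
          · have := m6 (v - 1).toNat (by omega)
            convert this using 1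
            · simp only [g, c2, if_true, Prod.ext_iff]; omega
            · simp only [g, c2, if_true, Prod.ext_iff]; omega
          · have := (m6 ((b : ℤ) - v).toNat (by omega)).symm
            convert this using 1
            · simp only [g, c2, if_false, Prod.ext_iff]; omega
            · simp only [g, c2, if_false, Prod.ext_iff]; omega
      · intro u v hu hv a1 a2
        exact m5 _ _ (h5 u v (by omega) hv a1 a2)
      · rw [m3]
        rcases hs with rfl | rfl <;> simp [g] <;> omega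
    rcases hl with hl | hl
    · obtain ⟨M, hM, hm⟩ := key _ 0 hl (Or.inl rfl) (by simp)
      exact ⟨M, hM, Or.inr (by simpa using hm)⟩
    · obtain ⟨M, hM, hm⟩ := key _ 1 hl (Or.inr rfl) (by simp)
      exact ⟨M, hM, Or.inl (by simpa using hm)⟩

theorem good_rect (a b : ℤ) (ha : 0 ≤ a) (hb : 0 ≤ b) : ∃ L, Good L a b := by
  rcases le_total b a with h | h
  · obtain ⟨L, hL, -⟩ := good_wide b.toNat (a - b).toNat
    refine ⟨L, ?_⟩
    convert hL using 1 <;> omega
  · obtain ⟨L, hL, -⟩ := good_wide a.toNat (b - a).toNat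
    refine ⟨L.map Prod.swap, ?_⟩
    convert hL.swap using 1 <;> omega

end Pool.Agent.MP_3c4208_co

end MrgPart0

-- ======== part 1: formerly Pool.Agent.MP_3c4208_co.Sim
section MrgPart1

/-! Simulation of paths of one board by paths of another; distances between unique letters and the
saturation argument that pins a repeated letter. -/

namespace Pool.Agent.MP_3c4208_co

def InBox (n : ℤ) (p : ℤ × ℤ) : Prop := 0 ≤ p.1 ∧ p.1 < n ∧ 0 ≤ p.2 ∧ p.2 < n

/-- every path of `B` is matched by a path of `B'` with the same letters -/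
def Sim (n : ℤ) (B B' : ℤ × ℤ → ℕ) : Prop :=
  ∀ L : List (ℤ × ℤ), 2 ≤ L.length → L.Nodup → L.IsChain Near → (∀ p ∈ L, InBox n p) →
    ∃ ψ : ℤ × ℤ → ℤ × ℤ, (∀ p ∈ L, InBox n (ψ p) ∧ B' (ψ p) = B p) ∧
      (∀ p ∈ L, ∀ q ∈ L, ψ p = ψ q → p = q) ∧ ∀ p q, Cons L p q → Near (ψ p) (ψ q)

/-- king distance -/
def kd (p q : ℤ × ℤ) : ℤ := max (max (p.1 - q.1) (q.1 - p.1)) (max (p.2 - q.2) (q.2 - p.2))

theorem Near.symm {p q : ℤ × ℤ} (h : Near p q) : Near q p := by
  simp only [Near] at h ⊢; omega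

theorem Sim.kd_le {n : ℤ} {B B' : ℤ × ℤ → ℕ} (h : Sim n B B') {u v u' v' : ℤ × ℤ}
    (hu : InBox n u) (hv : InBox n v) (hne : u ≠ v)
    (hu' : ∀ p, InBox n p → B' p = B u → p = u') (hv' : ∀ p, InBox n p → B' p = B v → p = v') :
    kd u' v' ≤ kd u v := by
  obtain ⟨d, hd⟩ : ∃ d : ℕ, kd u v = d := ⟨(kd u v).toNat, by simp only [kd]; omega⟩
  have hd1 : 1 ≤ d := by
    by_contra c
    apply hne
    simp only [kd] at hd
    ext <;> omega
  let g : ℕ → ℤ × ℤ := fun j =>
    (u.1 + max (-(j : ℤ)) (min j (v.1 - u.1)), u.2 + max (-(j : ℤ)) (min j (v.2 - u.2)))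
  have g0 : g 0 = u := by
    simp only [g]; ext <;> simp only [] <;> omega
  have gd : g d = v := by
    simp only [kd] at hd
    simp only [g]; ext <;> simp only [] <;> omega
  have hmem : ∀ j ≤ d, g j ∈ (List.range (d + 1)).map g := fun j hj =>
    List.mem_map.2 ⟨j, List.mem_range.2 (by omega), rfl⟩
  obtain ⟨ψ, p1, -, p3⟩ := h ((List.range (d + 1)).map g) (by simp; omega)
    (rm_nodup g _ (by
      intro i hi j hj
      simp only [kd] at hd
      simp only [g, Prod.ext_iff]
      omega))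
    (rm_chain g _ (by
      intro j hj
      simp only [g, Near]
      omega))
    (by
      intro p hp
      obtain ⟨j, hj, rfl⟩ := List.mem_map.1 hp
      simp only [InBox, g] at hu hv ⊢
      omega)
  have hall : ∀ j ≤ d, kd (ψ (g 0)) (ψ (g j)) ≤ j := by
    intro j
    induction j with
    | zero => intro _; simp [kd]
    | succ j ih =>
      intro hj
      have a := ih (by omega)
      have b := p3 _ _ (Or.inl (rm_infix g (d + 1) j (by omega)))
      simp only [kd, Near] at a b ⊢
      omega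
  have e1 : ψ (g 0) = u' := hu' _ (p1 _ (hmem 0 (by omega))).1 (by
    rw [(p1 _ (hmem 0 (by omega))).2, g0])
  have e2 : ψ (g d) = v' := hv' _ (p1 _ (hmem d le_rfl)).1 (by
    rw [(p1 _ (hmem d le_rfl)).2, gd])
  have := hall d le_rfl
  rw [e1, e2] at this
  omega

/-- invariance of simulation under symmetries of the box -/
theorem Sim.comp {n : ℤ} {B B' : ℤ × ℤ → ℕ} (h : Sim n B B') (ρ τ τi : ℤ × ℤ → ℤ × ℤ)
    (ρ1 : ∀ p, InBox n p → InBox n (ρ p)) (ρ2 : Function.Injective ρ)
    (ρ3 : ∀ p q, Near p q → Near (ρ p) (ρ q))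
    (τ1 : ∀ p, InBox n p → InBox n (τi p)) (τ2 : ∀ p, τ (τi p) = p)
    (τ3 : ∀ p q, Near p q → Near (τi p) (τi q)) : Sim n (B ∘ ρ) (B' ∘ τ) := by
  intro L l1 l2 l3 l4
  obtain ⟨ψ, p1, p2, p3⟩ := h (L.map ρ) (by simpa using l1) (l2.map ρ2)
    (by rw [List.isChain_map]; exact l3.imp (fun {a b} hab => ρ3 a b hab))
    (by
      intro p hp
      obtain ⟨q, hq, rfl⟩ := List.mem_map.1 hp
      exact ρ1 q (l4 q hq))
  refine ⟨fun p => τi (ψ (ρ p)), ?_, ?_, ?_⟩
  · intro p hp
    have := p1 _ (List.mem_map_of_mem (f := ρ) hp)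
    exact ⟨τ1 _ this.1, by simp [τ2, this.2]⟩
  · intro p hp q hq e
    have e' : ψ (ρ p) = ψ (ρ q) := by rw [← τ2 (ψ (ρ p)), ← τ2 (ψ (ρ q))]; exact congrArg τ e
    exact ρ2 (p2 _ (List.mem_map_of_mem hp) _ (List.mem_map_of_mem hq) e')
  · intro p q hpq
    exact τ3 _ _ (p3 _ _ (hpq.map ρ))

/-- The saturation argument. `U` is a set of cells whose letters are unique and sit at the same
place in both boards. If the two corner-shaped layers at distance `t` and `t+1` below and to the
left of `c` lie in `U`, both boards carry the same letter at `c`. -/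
theorem Sim.pin {n : ℤ} {B B' : ℤ × ℤ → ℕ} (h : Sim n B B') (U : ℤ × ℤ → Prop)
    (hU : ∀ u, InBox n u → U u → ∀ p, InBox n p → B' p = B u → p = u)
    (hU' : ∀ u, InBox n u → U u → ∀ p, InBox n p → B' u = B p → p = u)
    (c : ℤ × ℤ) (hc : InBox n c) (t : ℤ) (ht : 1 ≤ t) (h1 : t ≤ c.1) (h2 : t ≤ c.2)
    (hlay : ∀ p, InBox n p → (max (c.1 - p.1) (c.2 - p.2) = t ∨
      max (c.1 - p.1) (c.2 - p.2) = t + 1) → U p) : B' c = B c := by
  classical
  set x0 := c.1 - t with hx0
  set y0 := c.2 - t with hy0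
  simp only [InBox] at hc
  obtain ⟨L, g1, g2, g3, g4, g5⟩ := good_rect (n - 1 - x0) (n - 1 - y0) (by omega) (by omega)
  let e : ℤ × ℤ → ℤ × ℤ := fun p => (x0 + p.1, y0 + p.2)
  have einj : Function.Injective e := by
    intro p q hpq
    simp only [e, Prod.ext_iff] at hpq ⊢
    omega
  have hmem : ∀ p, p ∈ L.map e ↔ x0 ≤ p.1 ∧ p.1 < n ∧ y0 ≤ p.2 ∧ p.2 < n := by
    intro p
    constructor
    · intro hp
      obtain ⟨q, hq, rfl⟩ := List.mem_map.1 hp
      rw [g3] at hq
      simp only [e]; omega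
    · intro hp
      refine List.mem_map.2 ⟨(p.1 - x0, p.2 - y0), ?_, ?_⟩
      · rw [g3]; simp only []; omega
      · simp only [e]; ext <;> simp only [] <;> omega
  have hlen : 2 ≤ (L.map e).length := by
    have a1 : (x0, y0) ∈ L.map e := (hmem _).2 (by simp only []; omega)
    have a2 : c ∈ L.map e := (hmem _).2 (by omega)
    have a3 : (x0, y0) ≠ c := by
      intro q; have := congrArg Prod.fst q; simp only [] at this; omega
    match hL : L.map e, a1, a2 with
    | [], a1, _ => simp at a1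
    | [a], a1, a2 => simp at a1 a2; exact absurd (a1.trans a2.symm) a3
    | _ :: _ :: _, _, _ => simp
  obtain ⟨ψ, p1, p2, p3⟩ := h (L.map e) hlen (g1.map einj)
    (by
      rw [List.isChain_map]
      refine g2.imp ?_
      intro a b hab
      simp only [Near, e] at hab ⊢
      omega)
    (by intro p hp; rw [hmem] at hp; simp only [InBox]; omega)
  -- unique cells are fixed, and repeated cells go to repeated cells
  have fix : ∀ p ∈ L.map e, U p → ψ p = p := by
    intro p hp hu
    have hb : InBox n p := by rw [hmem] at hp; simp only [InBox]; omega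
    exact hU p hb hu _ (p1 p hp).1 (p1 p hp).2
  have fix' : ∀ p ∈ L.map e, U (ψ p) → ψ p = p := by
    intro p hp hu
    have hb : InBox n p := by rw [hmem] at hp; simp only [InBox]; omega
    exact (hU' (ψ p) (p1 p hp).1 hu p hb (p1 p hp).2).symm
  -- one step of confinement
  have step : ∀ p ∈ L.map e, ∀ q ∈ L.map e, Cons (L.map e) q p → x0 ≤ (ψ q).1 → y0 ≤ (ψ q).2 →
      x0 ≤ (ψ p).1 ∧ y0 ≤ (ψ p).2 := by
    intro p hp q hq hc' a1 a2
    have hn := p3 _ _ hc'
    by_contra cc
    have hu : U (ψ p) := hlay _ (p1 p hp).1 (Or.inr (by simp only [Near] at hn; omega))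
    have := fix' p hp hu
    rw [this] at cc
    rw [hmem] at hp
    omega
  have vert : ∀ v : ℕ, ∀ u : ℤ, (v : ℤ) ≤ u → x0 + u < n → y0 + v < n →
      x0 ≤ (ψ (x0 + u, y0 + v)).1 ∧ y0 ≤ (ψ (x0 + u, y0 + v)).2 ∧
        (ψ (x0 + u, y0 + v)).2 ≤ y0 + v := by
    intro v
    induction v with
    | zero =>
      intro u a1 a2 a3
      have hm : (x0 + u, y0 + ((0 : ℕ) : ℤ)) ∈ L.map e := (hmem _).2 (by simp only []; omega)
      rw [fix _ hm (hlay _ (by simp only [InBox]; omega) (Or.inl (by simp only []; omega)))]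
      simp only []; omega
    | succ v ih =>
      intro u a1 a2 a3
      have i1 := ih u (by omega) a2 (by omega)
      have hc' : Cons (L.map e) (x0 + u, y0 + v) (x0 + u, y0 + ((v + 1 : ℕ) : ℤ)) := by
        have := (g4 u ((v + 1 : ℕ) : ℤ) (by omega) (by omega) (by omega) a1).map e
        have e1 : e (u, ((v + 1 : ℕ) : ℤ) - 1) = (x0 + u, y0 + v) := by
          simp only [e]; ext <;> simp only []; omega
        rw [e1] at this
        exact this
      have s := step _ ((hmem _).2 (by simp only []; omega)) _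
        ((hmem _).2 (by simp only []; omega)) hc' i1.1 i1.2.1
      have hn := p3 _ _ hc'
      simp only [Near] at hn
      omega
  have hori : ∀ u : ℕ, ∀ v : ℤ, (u : ℤ) ≤ v → x0 + u < n → y0 + v < n →
      x0 ≤ (ψ (x0 + u, y0 + v)).1 ∧ y0 ≤ (ψ (x0 + u, y0 + v)).2 ∧
        (ψ (x0 + u, y0 + v)).1 ≤ x0 + u := by
    intro u
    induction u with
    | zero =>
      intro v a1 a2 a3
      have hm : (x0 + ((0 : ℕ) : ℤ), y0 + v) ∈ L.map e := (hmem _).2 (by simp only []; omega)
      rw [fix _ hm (hlay _ (by simp only [InBox]; omega) (Or.inl (by simp only []; omega)))]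
      simp only []; omega
    | succ u ih =>
      intro v a1 a2 a3
      have i1 := ih v (by omega) (by omega) a3
      have hc' : Cons (L.map e) (x0 + u, y0 + v) (x0 + ((u + 1 : ℕ) : ℤ), y0 + v) := by
        have := (g5 ((u + 1 : ℕ) : ℤ) v (by omega) (by omega) (by omega) a1).map e
        have e1 : e (((u + 1 : ℕ) : ℤ) - 1, v) = (x0 + u, y0 + v) := by
          simp only [e]; ext <;> simp only []; omega
        rw [e1] at this
        exact this
      have s := step _ ((hmem _).2 (by simp only []; omega)) _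
        ((hmem _).2 (by simp only []; omega)) hc' i1.1 i1.2.1
      have hn := p3 _ _ hc'
      simp only [Near] at hn
      omega
  let f : ℤ × ℤ → ℤ := fun p => min (p.1 - x0) (p.2 - y0)
  let Q : Finset (ℤ × ℤ) := (L.map e).toFinset
  have hQ : ∀ p, p ∈ Q ↔ p ∈ L.map e := fun p => List.mem_toFinset
  have both : ∀ p ∈ Q, ψ p ∈ Q ∧ f (ψ p) ≤ f p := by
    intro p hp
    rw [hQ] at hp
    have hb := (p1 p hp).1
    rw [hmem] at hp
    rw [hQ, hmem]
    simp only [InBox] at hb
    simp only [f]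
    rcases le_total (p.2 - y0) (p.1 - x0) with c1 | c1
    · have := vert (p.2 - y0).toNat (p.1 - x0) (by omega) (by omega) (by omega)
      have e1 : (x0 + (p.1 - x0), y0 + (((p.2 - y0).toNat : ℕ) : ℤ)) = p := by
        ext <;> simp only [] <;> omega
      rw [e1] at this
      omega
    · have := hori (p.1 - x0).toNat (p.2 - y0) (by omega) (by omega) (by omega)
      have e1 : (x0 + (((p.1 - x0).toNat : ℕ) : ℤ), y0 + (p.2 - y0)) = p := by
        ext <;> simp only [] <;> omega
      rw [e1] at this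
      omega
  have hinj : Set.InjOn ψ Q := fun p hp q hq e => p2 p ((hQ p).1 hp) q ((hQ q).1 hq) e
  have himg : Q.image ψ = Q := by
    apply Finset.eq_of_subset_of_card_le
    · intro p hp
      obtain ⟨q, hq, rfl⟩ := Finset.mem_image.1 hp
      exact (both q hq).1
    · rw [Finset.card_image_of_injOn hinj]
  have hsum : ∑ p ∈ Q, f (ψ p) = ∑ p ∈ Q, f p := by
    conv_rhs => rw [← himg]
    rw [Finset.sum_image hinj]
  have heq := (Finset.sum_eq_sum_iff_of_le (fun p hp => (both p hp).2)).1 hsum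
  have hcm : c ∈ L.map e := (hmem _).2 (by omega)
  have e1 : (x0 + t, y0 + ((t.toNat : ℕ) : ℤ)) = c := by ext <;> simp only [] <;> omega
  have e2 : (x0 + ((t.toNat : ℕ) : ℤ), y0 + t) = c := by ext <;> simp only [] <;> omega
  have v1 := vert t.toNat t (by omega) (by omega) (by omega)
  have v2 := hori t.toNat t (by omega) (by omega) (by omega)
  rw [e1] at v1
  rw [e2] at v2
  have v3 := heq c ((hQ c).2 hcm)
  simp only [f] at v3
  have : ψ c = c := by ext <;> omega
  rw [← (p1 c hcm).2, this]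

end Pool.Agent.MP_3c4208_co

end MrgPart1

-- ======== part 2: formerly Pool.Agent.MP_3c4208_co.Iso
section MrgPart2

/-! A distance preserving map defined on all but a few cells of the board is the restriction of a
symmetry of the square. -/

namespace Pool.Agent.MP_3c4208_co

theorem exists_notMem_Icc (S : Finset ℤ) (r : ℕ) (hS : S.card ≤ r) (a : ℤ) :
    ∃ i, a ≤ i ∧ i ≤ a + r ∧ i ∉ S := by
  by_contra c
  push Not at c
  have : Finset.Icc a (a + r) ⊆ S := by
    intro i hi
    rw [Finset.mem_Icc] at hi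
    exact c i hi.1 hi.2
  have := Finset.card_le_card this
  rw [Int.card_Icc] at this
  omega

theorem exists_two_notMem_Icc (S : Finset ℤ) (r : ℕ) (hS : S.card ≤ r) (a : ℤ) :
    ∃ i j, a ≤ i ∧ i ≤ a + r + 1 ∧ a ≤ j ∧ j ≤ a + r + 1 ∧ i ≠ j ∧ i ∉ S ∧ j ∉ S := by
  obtain ⟨i, h1, h2, h3⟩ := exists_notMem_Icc S r hS a
  obtain ⟨j, k1, k2, k3⟩ := exists_notMem_Icc (insert i S) (r + 1)
    ((Finset.card_insert_le _ _).trans (by omega)) a
  rw [Finset.mem_insert, not_or] at k3
  exact ⟨i, j, h1, by omega, k1, by omega, fun e => k3.1 e.symm, h3, k3.2⟩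

theorem kd_snd (p q : ℤ × ℤ) : max (p.2 - q.2) (q.2 - p.2) ≤ kd p q := le_max_right _ _

theorem kd_same (a b c : ℤ) : kd (a, b) (a, c) = max (b - c) (c - b) := by
  simp only [kd]; omega

/-- `(X, Y)` maps the cells of the box that lie in `U` into the box and preserves king distances -/
structure Iso (n : ℤ) (U : ℤ × ℤ → Prop) (X Y : ℤ × ℤ → ℤ) : Prop where
  box : ∀ u, InBox n u → U u → InBox n (X u, Y u)
  iso : ∀ u v, InBox n u → U u → InBox n v → U v → kd (X u, Y u) (X v, Y v) = kd u v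

variable {n : ℤ} {U : ℤ × ℤ → Prop} {X Y : ℤ × ℤ → ℤ}

theorem Iso.swap (h : Iso n U X Y) : Iso n U Y X := by
  refine ⟨fun u a b => ?_, fun u v a b c d => ?_⟩
  · have := h.box u a b
    simp only [InBox] at this ⊢; omega
  · have := h.iso u v a b c d
    simp only [kd] at this ⊢; omega

theorem Iso.rev (h : Iso n U X Y) : Iso n U X (fun u => n - 1 - Y u) := by
  refine ⟨fun u a b => ?_, fun u v a b c d => ?_⟩
  · have := h.box u a b
    simp only [InBox] at this ⊢; omega
  · have := h.iso u v a b c d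
    simp only [kd] at this ⊢; omega

theorem Iso.transpose (h : Iso n U X Y) :
    Iso n (fun u => U u.swap) (fun u => Y u.swap) (fun u => X u.swap) := by
  have hb : ∀ u : ℤ × ℤ, InBox n u → InBox n u.swap := by
    intro u a; simp only [InBox, Prod.fst_swap, Prod.snd_swap] at a ⊢; omega
  refine ⟨fun u a b => ?_, fun u v a b c d => ?_⟩
  · have := h.box u.swap (hb u a) b
    simp only [InBox] at this ⊢; omega
  · have := h.iso u.swap v.swap (hb u a) b (hb v c) d
    simp only [kd, Prod.fst_swap, Prod.snd_swap] at this ⊢; omega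

theorem Iso.col (h : Iso n U X Y) (i : ℤ) (h0 : 0 ≤ i) (h1 : i < n) (hU : ∀ j, U (i, j)) :
    (∀ j, 0 ≤ j → j < n → Y (i, j) = j) ∨ (∀ j, 0 ≤ j → j < n → Y (i, j) = n - 1 - j) ∨
    (∀ j, 0 ≤ j → j < n → X (i, j) = j) ∨ (∀ j, 0 ≤ j → j < n → X (i, j) = n - 1 - j) := by
  have b0 : InBox n (i, 0) := by simp only [InBox]; omega
  have b1 : InBox n (i, n - 1) := by simp only [InBox]; omega
  have e := h.iso _ _ b0 (hU _) b1 (hU _)
  have c0 := h.box _ b0 (hU _)
  have c1 := h.box _ b1 (hU _)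
  have mid : ∀ j, 0 ≤ j → j < n → kd (X (i, 0), Y (i, 0)) (X (i, j), Y (i, j)) = j ∧
      kd (X (i, n - 1), Y (i, n - 1)) (X (i, j), Y (i, j)) = n - 1 - j := by
    intro j a b
    have bj : InBox n (i, j) := by simp only [InBox]; omega
    rw [h.iso _ _ b0 (hU _) bj (hU _), h.iso _ _ b1 (hU _) bj (hU _)]
    simp only [kd]; omega
  simp only [kd, InBox] at e c0 c1 mid
  have : (Y (i, 0) = 0 ∧ Y (i, n - 1) = n - 1) ∨ (Y (i, 0) = n - 1 ∧ Y (i, n - 1) = 0) ∨
      (X (i, 0) = 0 ∧ X (i, n - 1) = n - 1) ∨ (X (i, 0) = n - 1 ∧ X (i, n - 1) = 0) := by omega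
  rcases this with q | q | q | q
  · left; intro j a b; have := mid j a b; omega
  · right; left; intro j a b; have := mid j a b; omega
  · right; right; left; intro j a b; have := mid j a b; omega
  · right; right; right; intro j a b; have := mid j a b; omega

/-- an interior row in standard position forces every full column to be mapped to a vertical path -/
theorem Iso.col_vert (h : Iso n U X Y) (j0 : ℤ) (a0 : 0 < j0) (a1 : j0 < n - 1)
    (hU0 : ∀ i, U (i, j0)) (hX : ∀ i, 0 ≤ i → i < n → X (i, j0) = i)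
    (i : ℤ) (h0 : 0 ≤ i) (h1 : i < n) (hU : ∀ j, U (i, j)) :
    (∀ j, 0 ≤ j → j < n → Y (i, j) = j) ∨ (∀ j, 0 ≤ j → j < n → Y (i, j) = n - 1 - j) := by
  have b0 : InBox n (i, 0) := by simp only [InBox]; omega
  have b1 : InBox n (i, n - 1) := by simp only [InBox]; omega
  have r0 : InBox n (0, j0) := by simp only [InBox]; omega
  have r1 : InBox n (n - 1, j0) := by simp only [InBox]; omega
  have e00 := h.iso _ _ b0 (hU _) r0 (hU0 _)
  have e01 := h.iso _ _ b0 (hU _) r1 (hU0 _)
  have e10 := h.iso _ _ b1 (hU _) r0 (hU0 _)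
  have e11 := h.iso _ _ b1 (hU _) r1 (hU0 _)
  have x0 := hX 0 le_rfl (by omega)
  have x1 := hX (n - 1) (by omega) (by omega)
  have xi := hX i h0 h1
  simp only [kd] at e00 e01 e10 e11
  rcases h.col i h0 h1 hU with q | q | q | q
  · exact Or.inl q
  · exact Or.inr q
  · have q0 := q 0 le_rfl (by omega)
    have q1 := q (n - 1) (by omega) (by omega)
    omega
  · have q0 := q 0 le_rfl (by omega)
    have q1 := q (n - 1) (by omega) (by omega)
    omega

theorem Iso.col_up (h : Iso n U X Y) (j0 : ℤ) (a0 : 0 < j0) (a1 : j0 < n - 1)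
    (hU0 : ∀ i, U (i, j0)) (hX : ∀ i, 0 ≤ i → i < n → X (i, j0) = i)
    (i0 : ℤ) (b0 : 0 < i0) (b1 : i0 < n - 1) (hV0 : ∀ j, U (i0, j))
    (hY : ∀ j, 0 ≤ j → j < n → Y (i0, j) = j)
    (i : ℤ) (h0 : 0 ≤ i) (h1 : i < n) (hU : ∀ j, U (i, j)) :
    ∀ j, 0 ≤ j → j < n → Y (i, j) = j := by
  rcases h.col_vert j0 a0 a1 hU0 hX i h0 h1 hU with q | q
  · exact q
  · have e := h.iso (i, 0) (i0, 0) (by simp only [InBox]; omega) (hU _)
      (by simp only [InBox]; omega) (hV0 _)
    have q0 := q 0 le_rfl (by omega)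
    have y0 := hY 0 le_rfl (by omega)
    simp only [kd] at e
    omega

theorem Iso.half (h : Iso n U X Y) (r : ℕ) (hr : 3 * (r : ℤ) + 2 ≤ n)
    (hcol : ∀ a : ℤ, 0 ≤ a → a + r < n → ∃ i, a ≤ i ∧ i ≤ a + r ∧ (∀ j, U (i, j)) ∧
      ∀ j, 0 ≤ j → j < n → Y (i, j) = j)
    (hrow : ∃ j1 j2 : ℤ, r ≤ j1 ∧ j1 ≤ 2 * r + 1 ∧ r ≤ j2 ∧ j2 ≤ 2 * r + 1 ∧ j1 ≠ j2 ∧
      (∀ i, U (i, j1)) ∧ (∀ i, U (i, j2)) ∧ (∀ i, 0 ≤ i → i < n → X (i, j1) = i) ∧
      (∀ i, 0 ≤ i → i < n → X (i, j2) = i)) :
    ∀ u, InBox n u → U u → Y u = u.2 := by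
  have midY : ∀ u, InBox n u → U u → r ≤ u.2 → u.2 ≤ n - 1 - r → Y u = u.2 := by
    intro u hu hU a b
    have hu' := hu
    simp only [InBox] at hu'
    obtain ⟨i, i1, i2, i3, i4⟩ := hcol (min u.1 (n - 1 - r)) (by omega) (by omega)
    have e0 := h.iso u (i, 0) hu hU (by simp only [InBox]; omega) (i3 _)
    have e1 := h.iso u (i, n - 1) hu hU (by simp only [InBox]; omega) (i3 _)
    have y0 := i4 0 le_rfl (by omega)
    have y1 := i4 (n - 1) (by omega) (by omega)
    simp only [kd] at e0 e1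
    omega
  have one : ∀ j : ℤ, r ≤ j → j ≤ 2 * r + 1 → (∀ i, U (i, j)) →
      (∀ i, 0 ≤ i → i < n → X (i, j) = i) → ∀ u, InBox n u → U u →
      max (Y u - j) (j - Y u) = max (u.2 - j) (j - u.2) := by
    intro j a b c d u hu hU
    have hb := h.box u hu hU
    have hu' := hu
    simp only [InBox] at hu' hb
    have b1 : InBox n (u.1, j) := by simp only [InBox]; omega
    have b2 : InBox n (X u, j) := by simp only [InBox]; omega
    have e1 := h.iso u _ hu hU b1 (c _)
    have e2 := h.iso u _ hu hU b2 (c _)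
    have y1 := midY _ b1 (c _) (by simp only []; omega) (by simp only []; omega)
    have y2 := midY _ b2 (c _) (by simp only []; omega) (by simp only []; omega)
    have x2 := d (X u) (by omega) (by omega)
    simp only [] at y1 y2
    rw [y1] at e1
    rw [y2, x2, kd_same] at e2
    have k1 := kd_snd (X u, Y u) (X (u.1, j), j)
    have k2 := kd_snd u (X u, j)
    have k3 : kd u (u.1, j) = max (u.2 - j) (j - u.2) := kd_same u.1 u.2 j
    rw [e1, k3] at k1
    rw [← e2] at k2
    exact le_antisymm k1 k2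
  obtain ⟨j1, j2, a1, a2, a3, a4, a5, a6, a7, a8, a9⟩ := hrow
  intro u hu hU
  have s1 := one j1 a1 a2 a6 a8 u hu hU
  have s2 := one j2 a3 a4 a7 a9 u hu hU
  omega

theorem Iso.std (h : Iso n U X Y) (r : ℕ) (hr : 3 * (r : ℤ) + 2 ≤ n)
    (SC SR : Finset ℤ) (hC : SC.card ≤ r) (hR : SR.card ≤ r)
    (hSC : ∀ i, i ∉ SC → ∀ j, U (i, j)) (hSR : ∀ j, j ∉ SR → ∀ i, U (i, j))
    (j0 : ℤ) (a0 : 0 < j0) (a1 : j0 < n - 1)
    (hU0 : ∀ i, U (i, j0)) (hX : ∀ i, 0 ≤ i → i < n → X (i, j0) = i)
    (i0 : ℤ) (b0 : 0 < i0) (b1 : i0 < n - 1) (hV0 : ∀ j, U (i0, j))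
    (hY : ∀ j, 0 ≤ j → j < n → Y (i0, j) = j) :
    ∀ u, InBox n u → U u → X u = u.1 ∧ Y u = u.2 := by
  have cols : ∀ i, 0 ≤ i → i < n → i ∉ SC → ∀ j, 0 ≤ j → j < n → Y (i, j) = j :=
    fun i h0 h1 hi => h.col_up j0 a0 a1 hU0 hX i0 b0 b1 hV0 hY i h0 h1 (hSC i hi)
  have rows : ∀ j, 0 ≤ j → j < n → j ∉ SR → ∀ i, 0 ≤ i → i < n → X (i, j) = i :=
    fun j h0 h1 hj => h.transpose.col_up i0 b0 b1 hV0 hY j0 a0 a1 hU0 hX j h0 h1 (hSR j hj)
  have hy := h.half r hr
    (by
      intro a p q
      obtain ⟨i, i1, i2, i3⟩ := exists_notMem_Icc SC r hC a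
      exact ⟨i, i1, i2, hSC i i3, cols i (by omega) (by omega) i3⟩)
    (by
      obtain ⟨i, j, c1, c2, c3, c4, c5, c6, c7⟩ := exists_two_notMem_Icc SR r hR r
      exact ⟨i, j, c1, by omega, c3, by omega, c5, hSR i c6, hSR j c7,
        rows i (by omega) (by omega) c6, rows j (by omega) (by omega) c7⟩)
  have hx := h.transpose.half r hr
    (by
      intro a p q
      obtain ⟨i, i1, i2, i3⟩ := exists_notMem_Icc SR r hR a
      exact ⟨i, i1, i2, hSR i i3, rows i (by omega) (by omega) i3⟩)
    (by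
      obtain ⟨i, j, c1, c2, c3, c4, c5, c6, c7⟩ := exists_two_notMem_Icc SC r hC r
      exact ⟨i, j, c1, by omega, c3, by omega, c5, hSC i c6, hSC j c7,
        cols i (by omega) (by omega) c6, cols j (by omega) (by omega) c7⟩)
  intro u hu hU
  refine ⟨?_, hy u hu hU⟩
  have := hx u.swap (by simp only [InBox, Prod.fst_swap, Prod.snd_swap] at hu ⊢; omega)
    (by simpa using hU)
  simpa using this

theorem Iso.std' (h : Iso n U X Y) (r : ℕ) (hr : 3 * (r : ℤ) + 2 ≤ n) (hr' : (r : ℤ) + 3 ≤ n)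
    (SC SR : Finset ℤ) (hC : SC.card ≤ r) (hR : SR.card ≤ r)
    (hSC : ∀ i, i ∉ SC → ∀ j, U (i, j)) (hSR : ∀ j, j ∉ SR → ∀ i, U (i, j))
    (j0 : ℤ) (a0 : 0 < j0) (a1 : j0 < n - 1)
    (hU0 : ∀ i, U (i, j0)) (hX : ∀ i, 0 ≤ i → i < n → X (i, j0) = i) :
    (∀ u, InBox n u → U u → X u = u.1 ∧ Y u = u.2) ∨
    (∀ u, InBox n u → U u → X u = u.1 ∧ Y u = n - 1 - u.2) := by
  obtain ⟨i0, i1, i2, i3⟩ := exists_notMem_Icc SC r hC 1
  rcases h.col_vert j0 a0 a1 hU0 hX i0 (by omega) (by omega) (hSC i0 i3) with q | q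
  · exact Or.inl (h.std r hr SC SR hC hR hSC hSR j0 a0 a1 hU0 hX i0 (by omega) (by omega)
      (hSC i0 i3) q)
  · right
    intro u hu hU
    have := h.rev.std r hr SC SR hC hR hSC hSR j0 a0 a1 hU0 hX i0 (by omega) (by omega)
      (hSC i0 i3) (fun j a b => by have := q j a b; omega) u hu hU
    omega

/-- optional reversal of a coordinate -/
def rv (n : ℤ) (r : Bool) (x : ℤ) : ℤ := if r then n - 1 - x else x

/-- the symmetries of the square in integer coordinates -/
def symZ (n : ℤ) (r₁ r₂ t : Bool) (p : ℤ × ℤ) : ℤ × ℤ :=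
  if t then (rv n r₂ p.2, rv n r₁ p.1) else (rv n r₁ p.1, rv n r₂ p.2)

theorem Iso.symm_exists (h : Iso n U X Y) (r : ℕ) (hr : 3 * (r : ℤ) + 2 ≤ n)
    (hr' : (r : ℤ) + 3 ≤ n) (SC SR : Finset ℤ) (hC : SC.card ≤ r) (hR : SR.card ≤ r)
    (hSC : ∀ i, i ∉ SC → ∀ j, U (i, j)) (hSR : ∀ j, j ∉ SR → ∀ i, U (i, j)) :
    ∃ r₁ r₂ t, ∀ u, InBox n u → U u → (X u, Y u) = symZ n r₁ r₂ t u := by
  obtain ⟨j0, j1, j2, j3⟩ := exists_notMem_Icc SR r hR 1
  have a0 : 0 < j0 := by omega
  have a1 : j0 < n - 1 := by omega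
  rcases h.transpose.col j0 (by omega) (by omega) (hSR j0 j3) with q | q | q | q
  · rcases h.std' r hr hr' SC SR hC hR hSC hSR j0 a0 a1 (hSR j0 j3) q with s | s
    · exact ⟨false, false, false, fun u a b => by simp [symZ, rv, s u a b]⟩
    · exact ⟨false, true, false, fun u a b => by simp [symZ, rv, s u a b]⟩
  · rcases h.swap.rev.swap.std' r hr hr' SC SR hC hR hSC hSR j0 a0 a1 (hSR j0 j3)
      (fun i a b => by have := q i a b; simp only [Prod.swap] at this; omega) with s | s
    · refine ⟨true, false, false, fun u a b => ?_⟩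
      have := s u a b
      simp [symZ, rv]; omega
    · refine ⟨true, true, false, fun u a b => ?_⟩
      have := s u a b
      simp [symZ, rv]; omega
  · rcases h.swap.std' r hr hr' SC SR hC hR hSC hSR j0 a0 a1 (hSR j0 j3) q with s | s
    · exact ⟨false, false, true, fun u a b => by simp [symZ, rv, s u a b]⟩
    · exact ⟨false, true, true, fun u a b => by simp [symZ, rv, s u a b]⟩
  · rcases h.rev.swap.std' r hr hr' SC SR hC hR hSC hSR j0 a0 a1 (hSR j0 j3)
      (fun i a b => by have := q i a b; simp only [Prod.swap] at this; omega) with s | s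
    · refine ⟨true, false, true, fun u a b => ?_⟩
      have := s u a b
      simp [symZ, rv]; omega
    · refine ⟨true, true, true, fun u a b => ?_⟩
      have := s u a b
      simp [symZ, rv]; omega

end Pool.Agent.MP_3c4208_co

end MrgPart2

-- ======== part 3: formerly Pool.Agent.MP_3c4208_co.Core
section MrgPart3

/-! Boards with few repeated letters are determined by their words. -/

namespace Pool.Agent.MP_3c4208_co

theorem pin_norm {n : ℤ} {B B' : ℤ × ℤ → ℕ} (h : Sim n B B') (H : Finset (ℤ × ℤ)) (r : ℕ)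
    (hH : H.card ≤ r) (hr : 4 * (r : ℤ) ≤ n + 2)
    (hU : ∀ u, InBox n u → u ∉ H → ∀ p, InBox n p → B' p = B u → p = u)
    (hU' : ∀ u, InBox n u → u ∉ H → ∀ p, InBox n p → B' u = B p → p = u)
    (c : ℤ × ℤ) (hc : InBox n c) (hcH : c ∈ H) (h1 : n - 1 ≤ 2 * c.1) (h2 : n - 1 ≤ 2 * c.2) :
    B' c = B c := by
  classical
  let s : ℤ × ℤ → ℤ := fun p => max (c.1 - p.1) (c.2 - p.2)
  have hpos : 1 ≤ H.card := Finset.card_pos.2 ⟨c, hcH⟩
  have hcard : ((H.erase c).image s ∪ (H.erase c).image (fun p => s p - 1)).card ≤ 2 * (r - 1) := by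
    have a := Finset.card_union_le ((H.erase c).image s) ((H.erase c).image (fun p => s p - 1))
    have b := Finset.card_image_le (s := H.erase c) (f := s)
    have d := Finset.card_image_le (s := H.erase c) (f := fun p => s p - 1)
    rw [Finset.card_erase_of_mem hcH] at b d
    omega
  obtain ⟨t, t1, t2, t3⟩ := exists_notMem_Icc _ _ hcard 1
  refine h.pin (fun u => u ∉ H) hU hU' c hc t t1 (by omega) (by omega) ?_
  intro p hp hs hpH
  apply t3
  have hne : p ∈ H.erase c := by
    rw [Finset.mem_erase]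
    refine ⟨?_, hpH⟩
    rintro rfl
    omega
  rw [Finset.mem_union]
  rcases hs with hs | hs
  · exact Or.inl (Finset.mem_image.2 ⟨p, hne, hs⟩)
  · exact Or.inr (Finset.mem_image.2 ⟨p, hne, by simp only [s]; omega⟩)

theorem symZ_box (n : ℤ) (a b t : Bool) (p : ℤ × ℤ) (h : InBox n p) : InBox n (symZ n a b t p) := by
  simp only [InBox] at h
  cases a <;> cases b <;> cases t <;> simp [InBox, symZ, rv] <;> omega

theorem symZ_near (n : ℤ) (a b t : Bool) (p q : ℤ × ℤ) (h : Near p q) :
    Near (symZ n a b t p) (symZ n a b t q) := by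
  simp only [Near] at h
  cases a <;> cases b <;> cases t <;> simp [Near, symZ, rv] <;> omega

theorem symZ_inv (n : ℤ) (a b t : Bool) (p : ℤ × ℤ) :
    symZ n a b t (symZ n (if t then b else a) (if t then a else b) t p) = p := by
  cases a <;> cases b <;> cases t <;> simp [symZ, rv]

theorem symZ_inv' (n : ℤ) (a b t : Bool) (p : ℤ × ℤ) :
    symZ n (if t then b else a) (if t then a else b) t (symZ n a b t p) = p := by
  cases a <;> cases b <;> cases t <;> simp [symZ, rv]

theorem symZ_invol (n : ℤ) (a b : Bool) (p : ℤ × ℤ) :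
    symZ n a b false (symZ n a b false p) = p := symZ_inv n a b false p

theorem pin_all {n : ℤ} {B B' : ℤ × ℤ → ℕ} (h : Sim n B B') (H : Finset (ℤ × ℤ)) (r : ℕ)
    (hH : H.card ≤ r) (hr : 4 * (r : ℤ) ≤ n + 2)
    (hU : ∀ u, InBox n u → u ∉ H → ∀ p, InBox n p → B' p = B u → p = u)
    (hU' : ∀ u, InBox n u → u ∉ H → ∀ p, InBox n p → B' u = B p → p = u)
    (c : ℤ × ℤ) (hc : InBox n c) (hcH : c ∈ H) : B' c = B c := by
  classical
  obtain ⟨a, b, k1, k2⟩ : ∃ a b : Bool, n - 1 ≤ 2 * (symZ n a b false c).1 ∧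
      n - 1 ≤ 2 * (symZ n a b false c).2 := by
    refine ⟨decide (2 * c.1 < n - 1), decide (2 * c.2 < n - 1), ?_, ?_⟩ <;>
      simp only [symZ, rv, Bool.false_eq_true, if_false, decide_eq_true_eq] <;>
      split_ifs <;> omega
  set ρ := symZ n a b false with hρ
  have inv : ∀ p, ρ (ρ p) = p := symZ_invol n a b
  have inj : Function.Injective ρ := Function.LeftInverse.injective inv
  have box : ∀ p, InBox n p → InBox n (ρ p) := symZ_box n a b false
  have hs := h.comp ρ ρ ρ box inj (symZ_near n a b false) box inv (symZ_near n a b false)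
  have hmem : ∀ u, u ∉ H.image ρ → ρ u ∉ H := fun u hu hm =>
    hu (Finset.mem_image.2 ⟨ρ u, hm, inv u⟩)
  have := pin_norm hs (H.image ρ) r (Finset.card_image_le.trans hH) hr
    (fun u hu hn p hp e => inj (hU (ρ u) (box u hu) (hmem u hn) (ρ p) (box p hp) e))
    (fun u hu hn p hp e => inj (hU' (ρ u) (box u hu) (hmem u hn) (ρ p) (box p hp) e))
    (ρ c) (box c hc) (Finset.mem_image_of_mem _ hcH) k1 k2
  simpa [inv] using this

theorem core {n : ℤ} {B B' : ℤ × ℤ → ℕ} (h : Sim n B B') (h' : Sim n B' B)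
    (H : Finset (ℤ × ℤ)) (r : ℕ) (hH : H.card ≤ r) (hr : 4 * (r : ℤ) ≤ n + 2)
    (hr1 : 3 * (r : ℤ) + 2 ≤ n) (hr2 : (r : ℤ) + 3 ≤ n) (φ : ℤ × ℤ → ℤ × ℤ)
    (φ1 : ∀ u, InBox n u → u ∉ H → InBox n (φ u) ∧ B' (φ u) = B u)
    (φ2 : ∀ u, InBox n u → u ∉ H → ∀ p, InBox n p → B' p = B u → p = φ u)
    (φ3 : ∀ u, InBox n u → u ∉ H → ∀ p, InBox n p → B p = B u → p = u) :
    ∃ r₁ r₂ t, ∀ p, InBox n p → B' (symZ n r₁ r₂ t p) = B p := by
  classical
  have hI : Iso n (fun u => u ∉ H) (fun u => (φ u).1) (fun u => (φ u).2) := by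
    refine ⟨fun u a b => (φ1 u a b).1, fun u v a b c d => ?_⟩
    by_cases e : u = v
    · subst e; simp [kd]
    · apply le_antisymm
      · exact h.kd_le a c e (φ2 u a b) (φ2 v c d)
      · refine h'.kd_le (φ1 u a b).1 (φ1 v c d).1 ?_ ?_ ?_
        · intro q
          apply e
          apply φ3 v c d u a
          rw [← (φ1 u a b).2, ← (φ1 v c d).2]
          exact congrArg B' q
        · intro p hp q
          exact φ3 u a b p hp (q.trans (φ1 u a b).2)
        · intro p hp q
          exact φ3 v c d p hp (q.trans (φ1 v c d).2)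
  obtain ⟨r₁, r₂, t, hσ⟩ := hI.symm_exists r hr1 hr2 (H.image Prod.fst) (H.image Prod.snd)
    (Finset.card_image_le.trans hH) (Finset.card_image_le.trans hH)
    (fun i hi j hm => hi (Finset.mem_image.2 ⟨_, hm, rfl⟩))
    (fun j hj i hm => hj (Finset.mem_image.2 ⟨_, hm, rfl⟩))
  have hσ' : ∀ u, InBox n u → u ∉ H → φ u = symZ n r₁ r₂ t u := fun u a b => hσ u a b
  refine ⟨r₁, r₂, t, fun p hp => ?_⟩
  by_cases hm : p ∈ H
  · have hs := h.comp id (symZ n r₁ r₂ t) _ (fun _ a => a) Function.injective_id (fun _ _ a => a)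
      (symZ_box n _ _ t) (symZ_inv n r₁ r₂ t) (symZ_near n _ _ t)
    have inj : Function.Injective (symZ n r₁ r₂ t) :=
      Function.LeftInverse.injective (symZ_inv' n r₁ r₂ t)
    exact pin_all hs H r hH hr
      (fun u a b q hq e => inj (by
        rw [← hσ' u a b]; exact φ2 u a b _ (symZ_box n _ _ t q hq) e))
      (fun u a b q hq e => φ3 u a b q hq (by
        have := (φ1 u a b).2
        rw [hσ' u a b] at this
        exact e.symm.trans this))
      p hp hm
  · rw [← hσ' p hp hm]; exact (φ1 p hp hm).2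

/-- integer coordinates of a cell -/
def co {n : ℕ} (c : Fin n × Fin n) : ℤ × ℤ := ((c.1 : ℤ), (c.2 : ℤ))

/-- the cell with given integer coordinates -/
def toC (n : ℕ) (hn : 0 < n) (p : ℤ × ℤ) : Fin n × Fin n :=
  (⟨p.1.toNat % n, Nat.mod_lt _ hn⟩, ⟨p.2.toNat % n, Nat.mod_lt _ hn⟩)

theorem co_box {n : ℕ} (c : Fin n × Fin n) : InBox n (co c) := by
  have := c.1.2
  have := c.2.2
  simp only [InBox, co]; omega

theorem toC_co {n : ℕ} (hn : 0 < n) (c : Fin n × Fin n) : toC n hn (co c) = c := by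
  ext <;> simp [toC, co, Nat.mod_eq_of_lt]

theorem co_toC {n : ℕ} (hn : 0 < n) (p : ℤ × ℤ) (hp : InBox n p) : co (toC n hn p) = p := by
  simp only [InBox] at hp
  have a : p.1.toNat % n = p.1.toNat := Nat.mod_eq_of_lt (by omega)
  have b : p.2.toNat % n = p.2.toNat := Nat.mod_eq_of_lt (by omega)
  ext <;> simp only [toC, co, a, b] <;> omega

theorem idx_of_infix {L : List (ℤ × ℤ)} (hL : L.Nodup) {p q : ℤ × ℤ} (h : [p, q] <:+: L) :
    L.idxOf q = L.idxOf p + 1 ∧ L.idxOf q < L.length := by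
  obtain ⟨s, t, rfl⟩ := h
  have l1 : s.length < (s ++ [p, q] ++ t).length := by simp
  have l2 : s.length + 1 < (s ++ [p, q] ++ t).length := by simp
  have e1 : (s ++ [p, q] ++ t)[s.length] = p := by simp
  have e2 : (s ++ [p, q] ++ t)[s.length + 1] = q := by simp
  have a := hL.idxOf_getElem _ l1
  have b := hL.idxOf_getElem _ l2
  rw [e1] at a
  rw [e2] at b
  omega

theorem sim_of_words {n : ℕ} (hn : 0 < n) {B B' : Fin n × Fin n → ℕ} (h : words B ⊆ words B') :
    Sim n (B ∘ toC n hn) (B' ∘ toC n hn) := by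
  intro L l1 l2 l3 l4
  have hinj : ∀ p ∈ L, ∀ q ∈ L, toC n hn p = toC n hn q → p = q := by
    intro p hp q hq e
    rw [← co_toC hn p (l4 p hp), ← co_toC hn q (l4 q hq), e]
  obtain ⟨P, P1, P2, P3, P4⟩ := h (a := (L.map (toC n hn)).map B) ⟨L.map (toC n hn),
    by simpa using l1, l2.map_on hinj, (by
      rw [List.isChain_iff_getElem] at l3 ⊢
      intro i hi
      simp only [List.length_map] at hi
      have hn' := l3 i hi
      have c1 := co_toC hn _ (l4 _ (List.getElem_mem (l := L) (n := i) (by omega)))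
      have c2 := co_toC hn _ (l4 _ (List.getElem_mem (l := L) (n := i + 1) hi))
      simp only [List.getElem_map]
      refine ⟨fun e => ?_, ?_, ?_⟩
      · have := hinj _ (List.getElem_mem _) _ (List.getElem_mem _) e
        rw [l2.getElem_inj_iff] at this
        omega
      · have a := congrArg Prod.fst c1
        have b := congrArg Prod.fst c2
        simp only [co] at a b
        rw [a, b, abs_le]
        simp only [Near] at hn'; omega
      · have a := congrArg Prod.snd c1
        have b := congrArg Prod.snd c2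
        simp only [co] at a b
        rw [a, b, abs_le]
        simp only [Near] at hn'; omega), rfl⟩
  have hlen : P.length = L.length := by simpa using (congrArg List.length P4).symm
  have hget : ∀ i (hi : i < L.length), B' (P[i]'(by omega)) = B (toC n hn L[i]) := by
    intro i hi
    have := List.getElem_of_eq P4 (i := i) (by simpa using hi)
    simpa using this.symm
  let ψ : ℤ × ℤ → ℤ × ℤ := fun p => co (P.getD (L.idxOf p) (toC n hn p))
  have hψ : ∀ p (hp : L.idxOf p < L.length), ψ p = co (P[L.idxOf p]'(by omega)) := by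
    intro p hp
    simp only [ψ]
    rw [List.getD_eq_getElem]
  have adj : ∀ p q, [p, q] <:+: L → Near (ψ p) (ψ q) := by
    intro p q hpq
    obtain ⟨a, b⟩ := idx_of_infix l2 hpq
    rw [hψ p (by omega), hψ q b]
    rw [List.isChain_iff_getElem] at P3
    have := P3 (L.idxOf p) (by omega)
    simp only [a]
    obtain ⟨-, k1, k2⟩ := this
    rw [abs_le] at k1 k2
    simp only [Near, co]
    omega
  refine ⟨ψ, ?_, ?_, ?_⟩
  · intro p hp
    have hi := List.idxOf_lt_length_iff.2 hp
    rw [hψ p hi]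
    refine ⟨co_box _, ?_⟩
    simp only [Function.comp, toC_co]
    rw [hget _ hi, List.getElem_idxOf]
  · intro p hp q hq e
    have hi := List.idxOf_lt_length_iff.2 hp
    have hj := List.idxOf_lt_length_iff.2 hq
    rw [hψ p hi, hψ q hj] at e
    have e2 := congrArg (toC n hn) e
    rw [toC_co, toC_co, P2.getElem_inj_iff] at e2
    exact (List.idxOf_inj hp).1 e2
  · intro p q hpq
    rcases hpq with a | a
    · exact adj p q a
    · exact (adj q p a).symm

theorem co_squareSym {n : ℕ} (a b t : Bool) (c : Fin n × Fin n) :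
    co (squareSym a b t c) = symZ n a b t (co c) := by
  have := c.1.2
  have := c.2.2
  cases a <;> cases b <;> cases t <;> simp [co, squareSym, symZ, rv, Fin.val_rev] <;> omega

end Pool.Agent.MP_3c4208_co

end MrgPart3

-- ======== part 4: formerly Pool.Agent.MP_3c4208_co.Count
section MrgPart4

/-! From types to the set of cells with repeated letters. -/

namespace Pool.Agent.MP_3c4208_co

theorem sum_get (lam : List ℕ) : ∑ i : Fin lam.length, lam.get i = lam.sum := by
  simp [List.get_eq_getElem]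

theorem sum_get_filter (lam : List ℕ) :
    ∑ i ∈ Finset.univ.filter (fun i : Fin lam.length => 2 ≤ lam.get i), lam.get i =
      (lam.filter (fun a => 2 ≤ a)).sum := by
  rw [Finset.sum_filter]
  have : ∑ i : Fin lam.length, (if 2 ≤ lam.get i then lam.get i else 0) =
      (lam.map (fun a => if 2 ≤ a then a else 0)).sum := by
    rw [← Fin.sum_univ_fun_getElem]; rfl
  rw [this]
  induction lam with
  | nil => simp
  | cons a l ih =>
    have ih' : (l.map (fun a => if 2 ≤ a then a else 0)).sum = (l.filter (fun a => 2 ≤ a)).sum := by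
      apply ih
      rw [← Fin.sum_univ_fun_getElem]; rfl
    by_cases h : 2 ≤ a <;> simp [h, ih']

theorem filter_sum_ne_one (lam : List ℕ) : (lam.filter (fun a => 2 ≤ a)).sum ≠ 1 := by
  have : ∀ a ∈ lam.filter (fun a => 2 ≤ a), 2 ≤ a := by
    intro a ha; simpa using (List.mem_filter.1 ha).2
  generalize lam.filter (fun a => 2 ≤ a) = l at this
  cases l with
  | nil => simp
  | cons a l =>
    have := this a (by simp)
    simp only [List.sum_cons]; omega

theorem letter_range {n : ℕ} {lam : List ℕ} (hs : lam.sum = n ^ 2) {B : Fin n × Fin n → ℕ}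
    (hB : HasType B lam) (c : Fin n × Fin n) : ∃ i : Fin lam.length, B c = (i : ℕ) + 1 := by
  classical
  have hcard : (Finset.univ.biUnion (fun i : Fin lam.length =>
      Finset.univ.filter (fun c => B c = (i : ℕ) + 1))).card = n ^ 2 := by
    rw [Finset.card_biUnion]
    · rw [← hs, ← sum_get]
      exact Finset.sum_congr rfl (fun i _ => hB i)
    · intro i _ j _ hij
      rw [Function.onFun, Finset.disjoint_filter]
      intro c _ a b
      exact hij (Fin.ext (by omega))
  have : (Finset.univ.biUnion (fun i : Fin lam.length =>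
      Finset.univ.filter (fun c => B c = (i : ℕ) + 1))) = Finset.univ := by
    apply Finset.eq_univ_of_card
    rw [hcard]; simp [pow_two]
  have hc := this ▸ Finset.mem_univ c
  simpa using hc

theorem few_repeats {n : ℕ} (hn : 3 ≤ n) {lam : List ℕ} (hs : lam.sum = n ^ 2)
    (hr : 4 * (lam.filter (fun a => 2 ≤ a)).sum ≤ n) (B : Fin n × Fin n → ℕ)
    (hB : HasType B lam) : Solvable lam B := by
  classical
  intro B' hB' hw
  have hn0 : 0 < n := by omega
  set r := (lam.filter (fun a => 2 ≤ a)).sum with hrdef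
  have hr1 : r ≠ 1 := filter_sum_ne_one lam
  let HF : Finset (Fin n × Fin n) := Finset.univ.filter (fun c => ∃ d, d ≠ c ∧ B d = B c)
  have hHF : HF.card ≤ r := by
    have sub : HF ⊆ (Finset.univ.filter (fun i : Fin lam.length => 2 ≤ lam.get i)).biUnion
        (fun i => Finset.univ.filter (fun c => B c = (i : ℕ) + 1)) := by
      intro c hc
      obtain ⟨d, d1, d2⟩ := (Finset.mem_filter.1 hc).2
      obtain ⟨i, hi⟩ := letter_range hs hB c
      rw [Finset.mem_biUnion]
      refine ⟨i, Finset.mem_filter.2 ⟨Finset.mem_univ _, ?_⟩, by simpa using hi⟩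
      rw [← hB i]
      exact Finset.one_lt_card.2 ⟨d, by simpa using d2.trans hi, c, by simpa using hi, d1⟩
    refine (Finset.card_le_card sub).trans (Finset.card_biUnion_le.trans ?_)
    rw [hrdef, ← sum_get_filter]
    exact le_of_eq (Finset.sum_congr rfl (fun i _ => hB i))
  have uniq : ∀ c, c ∉ HF → (∀ d, B d = B c → d = c) ∧ ∃ p, B' p = B c ∧ ∀ d, B' d = B c → d = p := by
    intro c hc
    have a : ∀ d, B d = B c → d = c := by
      intro d e
      by_contra ne
      exact hc (Finset.mem_filter.2 ⟨Finset.mem_univ _, d, ne, e⟩)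
    refine ⟨a, ?_⟩
    obtain ⟨i, hi⟩ := letter_range hs hB c
    have one : lam.get i = 1 := by
      rw [← hB i, Finset.card_eq_one]
      refine ⟨c, ?_⟩
      ext d
      simp only [Finset.mem_filter, Finset.mem_univ, true_and, Finset.mem_singleton]
      exact ⟨fun e => a d (e.trans hi.symm), fun e => e ▸ hi⟩
    have := hB' i
    rw [one, Finset.card_eq_one] at this
    obtain ⟨p, hp⟩ := this
    have hp' : ∀ d, B' d = (i : ℕ) + 1 ↔ d = p := by
      intro d
      have := Finset.ext_iff.1 hp d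
      simpa using this
    exact ⟨p, by rw [hi]; exact (hp' p).2 rfl, fun d e => (hp' d).1 (e.trans hi)⟩
  have uniq2 : ∀ c, ∃ p, c ∉ HF → B' p = B c ∧ ∀ d, B' d = B c → d = p := by
    intro c
    by_cases hc : c ∈ HF
    · exact ⟨c, fun h => absurd hc h⟩
    · obtain ⟨p, hp⟩ := (uniq c hc).2
      exact ⟨p, fun _ => hp⟩
  choose φ hφ using uniq2
  have hmem : ∀ u, InBox n u → u ∉ HF.image co → toC n hn0 u ∉ HF := fun u hu h1 h2 =>
    h1 (Finset.mem_image.2 ⟨_, h2, co_toC hn0 u hu⟩)
  obtain ⟨r₁, r₂, t, hσ⟩ := core (sim_of_words hn0 hw.symm.subset) (sim_of_words hn0 hw.subset)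
    (HF.image co) r (Finset.card_image_le.trans hHF) (by omega) (by omega) (by omega)
    (fun u => co (φ (toC n hn0 u)))
    (fun u hu h => ⟨co_box _, by
      simp only [Function.comp, toC_co]; exact (hφ _ (hmem u hu h)).1⟩)
    (fun u hu h p hp e => by
      rw [← (hφ _ (hmem u hu h)).2 _ e, co_toC hn0 p hp])
    (fun u hu h p hp e => by
      rw [← co_toC hn0 p hp, ← co_toC hn0 u hu, (uniq _ (hmem u hu h)).1 _ e])
  refine ⟨if t then r₂ else r₁, if t then r₁ else r₂, t, ?_⟩
  funext c
  have := hσ (co (squareSym (if t then r₂ else r₁) (if t then r₁ else r₂) t c)) (co_box _)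
  rw [co_squareSym, symZ_inv, ← co_squareSym] at this
  simpa [toC_co] using this

end Pool.Agent.MP_3c4208_co

end MrgPart4

-- marker of a merged file
example : 731051 + 322753 = 731051 + 322753 := rfl
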